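import Pool.Agent.TH198.AT.Conv
import Pool.Agent.TH81.AT.CM

/-!
# Latala–Guerra: uniqueness of the positive solution of the replica symmetric equation
-/

set_option autoImplicit false

open MeasureTheory ProbabilityTheory Set Filter Topology

namespace Pool.TH347.AT

open Pool.TH198.AT

/-- the odd function `tanh y sech² y` -/
noncomputable def uu (y : ℝ) : ℝ := Real.tanh y * sech y ^ 2

theorem sech_pos (y : ℝ) : 0 < sech y := inv_pos.2 (Real.cosh_pos y)

theorem sech_le_one (y : ℝ) : sech y ≤ 1 := inv_le_one_of_one_le₀ (Real.one_le_cosh y)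

theorem cont_sech : Continuous sech := by
  unfold sech
  exact Real.continuous_cosh.inv₀ (fun x => (Real.cosh_pos x).ne')

theorem tanh_eq (y : ℝ) : Real.tanh y = Real.sinh y * sech y := by
  rw [Real.tanh_eq_sinh_div_cosh, div_eq_mul_inv]; rfl

theorem cont_tanh : Continuous Real.tanh := by
  have : Real.tanh = fun y => Real.sinh y * sech y := funext tanh_eq
  rw [this]
  exact Real.continuous_sinh.mul cont_sech

theorem cosh_sech (y : ℝ) : Real.cosh y * sech y = 1 := mul_inv_cancel₀ (Real.cosh_pos y).ne'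

theorem tanh_sq (y : ℝ) : Real.tanh y ^ 2 = 1 - sech y ^ 2 := by
  have h1 := cosh_sech y
  have h2 := Real.cosh_sq y
  rw [tanh_eq]
  have h3 : Real.sinh y ^ 2 = Real.cosh y ^ 2 - 1 := by linarith
  calc (Real.sinh y * sech y) ^ 2 = Real.sinh y ^ 2 * sech y ^ 2 := by ring
    _ = (Real.cosh y * sech y) ^ 2 - sech y ^ 2 := by rw [h3]; ring
    _ = 1 - sech y ^ 2 := by rw [h1]; ring

theorem tanh_sq_le (y : ℝ) : Real.tanh y ^ 2 ≤ 1 := by
  rw [tanh_sq]; nlinarith [sech_pos y, sq_nonneg (sech y)]

theorem abs_tanh_le (y : ℝ) : |Real.tanh y| ≤ 1 := by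
  have := tanh_sq_le y
  exact abs_le_one_iff_mul_self_le_one.2 (by nlinarith)

theorem sech_neg (y : ℝ) : sech (-y) = sech y := by unfold sech; rw [Real.cosh_neg]

theorem uu_neg (y : ℝ) : uu (-y) = -uu y := by
  unfold uu; rw [Real.tanh_neg, sech_neg]; ring

theorem uu_cont : Continuous uu := cont_tanh.mul (cont_sech.pow 2)

theorem sech_sq_le (y : ℝ) : sech y ^ 2 ≤ 1 := pow_le_one₀ (sech_pos y).le (sech_le_one y)

theorem uu_le (y : ℝ) : |uu y| ≤ 1 := by
  unfold uu
  rw [abs_mul, abs_of_nonneg (sq_nonneg (sech y))]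
  have h1 := abs_tanh_le y
  have h2 := sech_sq_le y
  have h3 := sq_nonneg (sech y)
  have h4 := abs_nonneg (Real.tanh y)
  nlinarith

theorem uu_nonneg {y : ℝ} (hy : 0 ≤ y) : 0 ≤ uu y := by
  unfold uu
  rw [tanh_eq]
  have := Real.sinh_nonneg_iff.2 hy
  have := sech_pos y
  positivity

theorem deriv_sech (y : ℝ) : HasDerivAt sech (-(Real.tanh y * sech y)) y := by
  have h := (Real.hasDerivAt_cosh y).inv (Real.cosh_pos y).ne'
  have e : -Real.sinh y / Real.cosh y ^ 2 = -(Real.tanh y * sech y) := by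
    rw [tanh_eq]; unfold sech; rw [div_eq_mul_inv, ← inv_pow]; ring
  rw [e] at h
  exact h

theorem deriv_tsq (y : ℝ) : HasDerivAt (fun y => Real.tanh y ^ 2) (2 * uu y) y := by
  have h := ((deriv_sech y).fun_pow 2).const_sub 1
  have e : (fun y => Real.tanh y ^ 2) = fun y => 1 - sech y ^ 2 := funext tanh_sq
  rw [e]
  refine h.congr_deriv ?_
  unfold uu
  push_cast
  ring

/-- `y sech² y ≤ tanh y` for `y ≥ 0`, strict for `y > 0`. -/
theorem key_pos {y : ℝ} (hy : 0 < y) : y * uu y < Real.tanh y ^ 2 := by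
  have h1 : y < Real.sinh y * Real.cosh y := by
    have h2 : 2 * y < Real.sinh (2 * y) := Real.self_lt_sinh_iff.2 (by linarith)
    rw [Real.sinh_two_mul] at h2
    linarith
  have h3 : 0 < Real.sinh y := Real.sinh_pos_iff.2 hy
  have h4 := sech_pos y
  have h5 := cosh_sech y
  unfold uu
  rw [tanh_eq]
  have h6 : (Real.sinh y * sech y) ^ 2 =
      (Real.sinh y * Real.cosh y) * (Real.sinh y * sech y * sech y ^ 2) := by
    have : Real.sinh y * sech y = Real.sinh y * sech y * (Real.cosh y * sech y) := by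
      rw [h5, mul_one]
    calc (Real.sinh y * sech y) ^ 2 = (Real.sinh y * sech y) * (Real.sinh y * sech y) := by ring
      _ = (Real.sinh y * sech y) * (Real.sinh y * sech y * (Real.cosh y * sech y)) := by
          rw [← this]
      _ = _ := by ring
  rw [h6]
  exact mul_lt_mul_of_pos_right h1 (by positivity)

theorem key_ne {y : ℝ} (hy : y ≠ 0) : y * uu y < Real.tanh y ^ 2 := by
  rcases lt_or_gt_of_ne hy with h | h
  · have h1 := key_pos (y := -y) (by linarith)
    rw [uu_neg, Real.tanh_neg] at h1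
    nlinarith
  · exact key_pos h

theorem key_le (y : ℝ) : y * uu y ≤ Real.tanh y ^ 2 := by
  by_cases hy : y = 0
  · subst hy; simp
  · exact (key_ne hy).le

theorem integ_id : Integrable (fun y : ℝ => y) (gaussianReal 0 1) :=
  (memLp_id_gaussianReal (μ := 0) (v := 1) 1).integrable (by norm_num)

theorem integ_bdd (F : ℝ → ℝ) (C : ℝ) (hF : Continuous F) (hC : ∀ x, |F x| ≤ C) :
    Integrable F (gaussianReal 0 1) :=
  Integrable.mono' (integrable_const C) hF.aestronglyMeasurable
    (Eventually.of_forall fun z => by rw [Real.norm_eq_abs]; exact hC z)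

theorem integ_id_mul (F : ℝ → ℝ) (C : ℝ) (hF : Continuous F) (hC : ∀ x, |F x| ≤ C) :
    Integrable (fun z => z * F z) (gaussianReal 0 1) :=
  integ_id.mul_bdd (c := C) hF.aestronglyMeasurable (Eventually.of_forall fun z => hC z)

/-- the averaged square of `tanh` as a function of the standard deviation -/
noncomputable def TT (h σ : ℝ) : ℝ := E1 (fun z => Real.tanh (h + σ * z) ^ 2)

theorem TT_deriv (h σ : ℝ) :
    HasDerivAt (TT h) (E1 (fun z => z * (2 * uu (h + σ * z)))) σ := by
  have hh := hasDerivAt_integral_of_dominated_loc_of_deriv_le (μ := gaussianReal 0 1)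
    (F := fun σ z => Real.tanh (h + σ * z) ^ 2)
    (F' := fun σ z => z * (2 * uu (h + σ * z))) (x₀ := σ)
    (s := univ) (bound := fun z => |z| * 2) Filter.univ_mem
    (Eventually.of_forall fun z => ((cont_tanh.comp (by fun_prop)).pow 2).aestronglyMeasurable)
    (integ_bdd _ 1 ((cont_tanh.comp (by fun_prop)).pow 2) (fun z => by
      rw [abs_of_nonneg (sq_nonneg _)]; exact tanh_sq_le _))
    (by
      have : Continuous fun z => z * (2 * uu (h + σ * z)) :=
        continuous_id.mul (continuous_const.mul (uu_cont.comp (by fun_prop)))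
      exact this.aestronglyMeasurable)
    (Eventually.of_forall fun z τ _ => by
      rw [Real.norm_eq_abs, abs_mul, abs_mul, abs_two]
      have := uu_le (h + τ * z)
      have h0 := abs_nonneg z
      nlinarith)
    (integ_id.abs.mul_const 2)
    (Eventually.of_forall fun z τ _ => by
      have h1 : HasDerivAt (fun τ : ℝ => h + τ * z) z τ := by
        have := ((hasDerivAt_id τ).mul_const z).const_add h
        simpa using this
      have h2 := (deriv_tsq (h + τ * z)).comp τ h1
      rw [mul_comm] at h2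
      exact h2)
  exact hh.2

/-- the mean of the odd function `uu` at a nonnegative shift is nonnegative -/
theorem uu_mean (h σ : ℝ) (hh : 0 ≤ h) (hσ : 0 < σ) : 0 ≤ E1 (fun z => uu (h + σ * z)) := by
  have hs : √(σ ^ 2) = σ := Real.sqrt_sq hσ.le
  have e := CMf.shift uu (σ ^ 2) h (by positivity)
  rw [hs] at e
  rw [e]
  refine mul_nonneg (Real.exp_pos _).le ?_
  set a := h / σ with ha
  have ha0 : 0 ≤ a := div_nonneg hh hσ.le
  have hi := CMf.integ uu 1 uu_cont uu_le
  have e1 : E1 (fun z => Real.exp (-a * z) * uu (σ * z)) =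
      -E1 (fun z => Real.exp (a * z) * uu (σ * z)) := by
    rw [← CMf.flip (fun z => Real.exp (a * z) * uu (σ * z))]
    unfold E1
    rw [← integral_neg]
    congr 1
    funext z
    show Real.exp (-a * z) * uu (σ * z) = -(Real.exp (a * -z) * uu (σ * -z))
    rw [mul_neg, mul_neg, uu_neg, neg_mul]
    ring
  have e2 : E1 (fun z => Real.sinh (a * z) * uu (σ * z)) =
      (E1 (fun z => Real.exp (a * z) * uu (σ * z)) -
        E1 (fun z => Real.exp (-a * z) * uu (σ * z))) / 2 := by
    unfold E1
    rw [← integral_sub (hi _ _) (hi _ _), ← integral_div]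
    refine integral_congr_ae (Eventually.of_forall fun z => ?_)
    simp only
    rw [Real.sinh_eq, neg_mul]
    ring
  have e3 : E1 (fun z => Real.exp (a * z) * uu (σ * z)) =
      E1 (fun z => Real.sinh (a * z) * uu (σ * z)) := by
    rw [e2, e1]; ring
  rw [e3]
  refine integral_nonneg fun z => ?_
  simp only [Pi.zero_apply]
  rcases le_total 0 z with hz | hz
  · exact mul_nonneg (Real.sinh_nonneg_iff.2 (mul_nonneg ha0 hz))
      (uu_nonneg (mul_nonneg hσ.le hz))
  · have h1 : Real.sinh (a * z) ≤ 0 := Real.sinh_nonpos_iff.2 (mul_nonpos_of_nonneg_of_nonpos ha0 hz)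
    have h2 : uu (σ * z) ≤ 0 := by
      have := uu_nonneg (y := -(σ * z)) (by nlinarith)
      rw [uu_neg] at this
      linarith
    exact mul_nonneg_of_nonpos_of_nonpos h1 h2

/-- `σ T'(σ) < 2 T(σ)` -/
theorem TT_lt (h σ : ℝ) (hh : 0 ≤ h) (hσ : 0 < σ) :
    σ * E1 (fun z => z * (2 * uu (h + σ * z))) < 2 * TT h σ := by
  have hc : Continuous fun z => uu (h + σ * z) := uu_cont.comp (by fun_prop)
  have hc2 : Continuous fun z => Real.tanh (h + σ * z) ^ 2 :=
    (cont_tanh.comp (by fun_prop)).pow 2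
  have i1 : Integrable (fun z => uu (h + σ * z)) (gaussianReal 0 1) :=
    integ_bdd _ 1 hc (fun z => uu_le _)
  have i2 : Integrable (fun z => z * uu (h + σ * z)) (gaussianReal 0 1) :=
    integ_id_mul _ 1 hc (fun z => uu_le _)
  have i3 : Integrable (fun z => Real.tanh (h + σ * z) ^ 2) (gaussianReal 0 1) :=
    integ_bdd _ 1 hc2 (fun z => by rw [abs_of_nonneg (sq_nonneg _)]; exact tanh_sq_le _)
  have i4 : Integrable (fun z => (h + σ * z) * uu (h + σ * z)) (gaussianReal 0 1) := by
    have : (fun z => (h + σ * z) * uu (h + σ * z)) =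
        fun z => h * uu (h + σ * z) + σ * (z * uu (h + σ * z)) := by funext z; ring
    rw [this]
    exact (i1.const_mul h).add (i2.const_mul σ)
  have m := uu_mean h σ hh hσ
  have e1 : σ * E1 (fun z => z * (2 * uu (h + σ * z))) =
      2 * (E1 (fun z => (h + σ * z) * uu (h + σ * z)) - h * E1 (fun z => uu (h + σ * z))) := by
    unfold E1
    rw [← integral_const_mul, ← integral_const_mul, ← integral_sub i4 (i1.const_mul h),
      ← integral_const_mul]
    congr 1
    funext z
    ring
  have e2 : E1 (fun z => (h + σ * z) * uu (h + σ * z)) < TT h σ := by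
    have hpos : 0 < ∫ z, (Real.tanh (h + σ * z) ^ 2 - (h + σ * z) * uu (h + σ * z))
        ∂(gaussianReal 0 1) := by
      have hn : 0 ≤ fun z => Real.tanh (h + σ * z) ^ 2 - (h + σ * z) * uu (h + σ * z) :=
        fun z => sub_nonneg.2 (key_le _)
      have hi := i3.sub i4
      rcases (integral_nonneg hn).lt_or_eq with h1 | h1
      · exact h1
      · exfalso
        have h2 := (integral_eq_zero_iff_of_nonneg hn hi).1 h1.symm
        have : NullSingletonClass (gaussianReal 0 1) :=
          nullSingletonClass_gaussianReal (μ := 0) (v := 1) (by norm_num)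
        have h3 : ∀ᵐ z ∂(gaussianReal 0 1), z ≠ -h / σ :=
          (measure_eq_zero_iff_ae_notMem).1 (measure_singleton (-h / σ))
        have h4 : ∀ᵐ z ∂(gaussianReal 0 1), False := by
          filter_upwards [h2, h3] with z hz1 hz2
          have h5 : h + σ * z ≠ 0 := by
            intro h6
            apply hz2
            rw [eq_div_iff hσ.ne']
            linarith
          have h7 := key_ne h5
          simp only [Pi.zero_apply] at hz1
          linarith
        have h8 := h4.exists
        exact h8.choose_spec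
    rw [integral_sub i3 i4] at hpos
    have : E1 (fun z => (h + σ * z) * uu (h + σ * z)) =
      ∫ z, (h + σ * z) * uu (h + σ * z) ∂(gaussianReal 0 1) := rfl
    rw [this]
    unfold TT E1
    linarith
  rw [e1]
  have := mul_nonneg hh m
  linarith

theorem TT_anti (h : ℝ) (hh : 0 ≤ h) : StrictAntiOn (fun σ => TT h σ / σ ^ 2) (Ioi 0) := by
  have hd : ∀ σ : ℝ, 0 < σ → HasDerivAt (fun σ => TT h σ / σ ^ 2)
      ((E1 (fun z => z * (2 * uu (h + σ * z))) * σ ^ 2 - TT h σ * (2 * σ)) / (σ ^ 2) ^ 2) σ := by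
    intro σ hσ
    have h1 := (TT_deriv h σ).fun_div ((hasDerivAt_id' σ).fun_pow 2) (by simp [hσ.ne'])
    refine h1.congr_deriv ?_
    simp
  refine strictAntiOn_of_deriv_neg (convex_Ioi 0) ?_ ?_
  · intro σ hσ
    exact (hd σ hσ).continuousAt.continuousWithinAt
  · intro σ hσ
    rw [interior_Ioi] at hσ
    have hσ' : 0 < σ := hσ
    rw [(hd σ hσ').deriv]
    have := TT_lt h σ hh hσ'
    refine div_neg_of_neg_of_pos ?_ (by positivity)
    nlinarith

theorem TT_neg (h σ : ℝ) : TT (-h) σ = TT h σ := by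
  unfold TT
  rw [← CMf.flip (fun z => Real.tanh (h + σ * z) ^ 2)]
  congr 1
  funext z
  have : -h + σ * z = -(h + σ * -z) := by ring
  rw [this, Real.tanh_neg, neg_sq]

theorem TT_anti' (h : ℝ) : StrictAntiOn (fun σ => TT h σ / σ ^ 2) (Ioi 0) := by
  rcases le_total 0 h with hh | hh
  · exact TT_anti h hh
  · have := TT_anti (-h) (by linarith)
    simpa only [TT_neg] using this

theorem t_LG : St_LG := by
  intro β h q1 q2 hβ h1 h12 e1 e2
  have h2 : 0 < q2 := h1.trans h12
  have p1 : 0 < √(2 * β ^ 2 * q1) := Real.sqrt_pos.2 (by positivity)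
  have p2 : 0 < √(2 * β ^ 2 * q2) := Real.sqrt_pos.2 (by positivity)
  have hlt : √(2 * β ^ 2 * q1) < √(2 * β ^ 2 * q2) :=
    Real.sqrt_lt_sqrt (by positivity) (by gcongr)
  have h3 := TT_anti' h p1 p2 hlt
  have f1 : TT h (√(2 * β ^ 2 * q1)) = q1 := e1.symm
  have f2 : TT h (√(2 * β ^ 2 * q2)) = q2 := e2.symm
  simp only [f1, f2] at h3
  rw [Real.sq_sqrt (by positivity), Real.sq_sqrt (by positivity)] at h3
  have g1 : q1 / (2 * β ^ 2 * q1) = 1 / (2 * β ^ 2) := by
    field_simp
  have g2 : q2 / (2 * β ^ 2 * q2) = 1 / (2 * β ^ 2) := by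
    field_simp
  rw [g1, g2] at h3
  exact lt_irrefl _ h3

end Pool.TH347.AT
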